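import Pool.Agent.Run7.h346.LC.Asy
import Pool.Agent.Run7.h346.LC.Low

/-!
# The `ℓ_p`-version of Turán's (3,4)-problem for large `p`

Let `H` be a `K_4^3`-free 3-graph on `n` vertices and `d(x,y)` the codegree of the pair `x`, `y`. It is
shown that, for `p → ∞`,

  `max ∑_{(x,y)} d(x,y)^p = (2 + o(1)) / (e p) * n^(p+2)`,

the sum over all ordered pairs, with an error term which does not depend on `n` in the upper bound.
For `3/2 ≤ p ≤ 29/10` the maximum is attained (asymptotically) by Turán's construction (starting file
`CodegreePowers`); for large `p` the extremal constant is, up to the factor `1 + o(1)`, that of the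
3-graph `AAB` of all triples with two vertices in `A` and one in `B`, where `|B| = n / (p + 2)`. For
every real `p ≥ 5` this 3-graph is already better than Turán's construction. For complete 3-graphs
with an odd number of vertices Turán's construction is optimal for all large `p` (starting file
`Pool/Agent/TH200/LPl.lean`); so the case of four vertices is different.

The same is shown for the sums of the `p`-th powers of the degrees of the vertices, and the number of
the pairs with codegree at least `(1 - s) n` is determined up to a factor `1 + O(√s)`.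

Outline. Let `M(x,y)` be the set of the vertices which form no edge with `x`, `y`, and join `x` and
`y` if `M(x,y)` has at most `S` elements. Let `x` have more than `4 S` neighbours. If `y` is a
neighbour of `x`, `b` is a neighbour of `y` and `b` is not in `M(x,y)`, then, since `x`, `y`, `a`, `b`
do not span a complete 3-graph, `b` is in `M(x,a)` for all but `2 S` neighbours `a` of `x`; there are
at most `2 S` such `b`, and each of them is outside of `M(x,a)` for at most `2 S` neighbours `a`. So
`y` has at most `|M(x,y)|` neighbours, up to a small error on average, and the `p`-th powers of the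
codegrees of the pairs at `y` have the sum at most `k exp (-p k / n) n^p ≤ n^(p+1) / (e p)`, where `k`
is the number of neighbours of `y`. The pairs of vertices which both have few neighbours are
negligible, since two disjoint such pairs, which do not span a complete 3-graph, intersect the set
`M` of each other.
-/

set_option autoImplicit false
open Finset
open scoped Classical

namespace Pool.Agent.Results.MP_f1799f_co.LargeCodegreePowers

open Pool.Agent.Run7.h346.LC

/-- `H` is a `K_4^3`-free 3-graph: all edges have three vertices, and no four vertices span all four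
triples. -/
def K43Free {n : ℕ} (H : Finset (Finset (Fin n))) : Prop :=
  (∀ e ∈ H, e.card = 3) ∧ ∀ S : Finset (Fin n), S.card = 4 → ∃ s ⊆ S, s.card = 3 ∧ s ∉ H

/-- The number of vertices `z` such that `{x, y, z}` is an edge of `H`: the codegree of the pair
`x`, `y`. It is `0` for `x = y`. -/
noncomputable def codegree {n : ℕ} (H : Finset (Finset (Fin n))) (x y : Fin n) : ℕ :=
  (univ.filter fun z => {x, y, z} ∈ H).card

/-- The number of ordered pairs `(y, z)` such that `{x, y, z}` is an edge of `H`; this is twice the
degree of `x`. -/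
noncomputable def twiceDegree {n : ℕ} (H : Finset (Finset (Fin n))) (x : Fin n) : ℕ :=
  (univ.filter fun q : Fin n × Fin n => {x, q.1, q.2} ∈ H).card

def rel {n : ℕ} (H : Finset (Finset (Fin n))) (x y z : Fin n) : Prop := {x, y, z} ∈ H

theorem rel_ne {n : ℕ} {H : Finset (Finset (Fin n))} (h3 : ∀ e ∈ H, e.card = 3) {x y z : Fin n}
    (h : rel H x y z) : x ≠ y ∧ x ≠ z ∧ y ≠ z := by
  have h1 := h3 _ h
  refine ⟨?_, ?_, ?_⟩
  · rintro rfl
    have : ({x, x, z} : Finset (Fin n)) = {x, z} := by simp
    rw [this] at h1
    have := card_le_two (a := x) (b := z)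
    omega
  · rintro rfl
    have : ({x, y, x} : Finset (Fin n)) = {x, y} := by ext w; simp; tauto
    rw [this] at h1
    have := card_le_two (a := x) (b := y)
    omega
  · rintro rfl
    have : ({x, y, y} : Finset (Fin n)) = {x, y} := by simp
    rw [this] at h1
    have := card_le_two (a := x) (b := y)
    omega

theorem rel_free {n : ℕ} {H : Finset (Finset (Fin n))} (hH : K43Free H) : Free (rel H) where
  s1 := fun x y z h => by
    unfold rel at *
    rw [Finset.insert_comm]
    exact h
  s2 := fun x y z h => by
    unfold rel at *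
    rw [Finset.pair_comm]
    exact h
  free := by
    rintro x y z w ⟨h1, h2, h3, h4⟩
    obtain ⟨a1, a2, a3⟩ := rel_ne hH.1 h1
    obtain ⟨b1, b2, b3⟩ := rel_ne hH.1 h2
    obtain ⟨c1, c2, c3⟩ := rel_ne hH.1 h3
    have hS : ({x, y, z, w} : Finset (Fin n)).card = 4 := by
      rw [card_insert_of_notMem (by simp [a1, a2, b2]), card_insert_of_notMem (by simp [a3, b3]),
        card_pair c3]
    obtain ⟨s, hs, hs3, hsH⟩ := hH.2 _ hS
    have hd : (({x, y, z, w} : Finset (Fin n)) \ s).card = 1 := by
      rw [card_sdiff_of_subset hs]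
      omega
    obtain ⟨a, ha⟩ := card_eq_one.1 hd
    have haS : a ∈ ({x, y, z, w} : Finset (Fin n)) :=
      (Finset.mem_sdiff.1 (ha ▸ mem_singleton_self a : a ∈ _ \ s)).1
    have hse : s = ({x, y, z, w} : Finset (Fin n)) \ {a} := by
      rw [← ha, sdiff_sdiff_right_self]
      exact (inter_eq_right.2 hs).symm
    apply hsH
    rw [hse]
    simp only [mem_insert, mem_singleton] at haS
    rcases haS with rfl | rfl | rfl | rfl
    · have : ({a, y, z, w} : Finset (Fin n)) \ {a} = {y, z, w} := by
        ext v
        simp only [Finset.mem_sdiff, mem_insert, mem_singleton]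
        constructor
        · rintro ⟨h | h, h'⟩
          · exact absurd h h'
          · exact h
        · intro h
          refine ⟨Or.inr h, ?_⟩
          rintro rfl
          rcases h with h | h | h
          · exact a1 h
          · exact a2 h
          · exact b2 h
      rw [this]; exact h4
    · have : ({x, a, z, w} : Finset (Fin n)) \ {a} = {x, z, w} := by
        ext v
        simp only [Finset.mem_sdiff, mem_insert, mem_singleton]
        constructor
        · rintro ⟨h | h | h, h'⟩
          · exact Or.inl h
          · exact absurd h h'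
          · exact Or.inr h
        · rintro (h | h)
          · exact ⟨Or.inl h, fun h' => a1 (h ▸ h')⟩
          · refine ⟨Or.inr (Or.inr h), ?_⟩
            rintro rfl
            rcases h with h | h
            · exact a3 h
            · exact b3 h
      rw [this]; exact h3
    · have : ({x, y, a, w} : Finset (Fin n)) \ {a} = {x, y, w} := by
        ext v
        simp only [Finset.mem_sdiff, mem_insert, mem_singleton]
        constructor
        · rintro ⟨h | h | h | h, h'⟩
          · exact Or.inl h
          · exact Or.inr (Or.inl h)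
          · exact absurd h h'
          · exact Or.inr (Or.inr h)
        · rintro (h | h | h)
          · exact ⟨Or.inl h, fun h' => a2 (h ▸ h')⟩
          · exact ⟨Or.inr (Or.inl h), fun h' => a3 (h ▸ h')⟩
          · exact ⟨Or.inr (Or.inr (Or.inr h)), fun h' => c3 (h' ▸ h)⟩
      rw [this]; exact h2
    · have : ({x, y, z, a} : Finset (Fin n)) \ {a} = {x, y, z} := by
        ext v
        simp only [Finset.mem_sdiff, mem_insert, mem_singleton]
        constructor
        · rintro ⟨h | h | h | h, h'⟩
          · exact Or.inl h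
          · exact Or.inr (Or.inl h)
          · exact Or.inr (Or.inr h)
          · exact absurd h h'
        · rintro (h | h | h)
          · exact ⟨Or.inl h, fun h' => b2 (h ▸ h')⟩
          · exact ⟨Or.inr (Or.inl h), fun h' => b3 (h ▸ h')⟩
          · exact ⟨Or.inr (Or.inr (Or.inl h)), fun h' => c3 (h ▸ h')⟩
      rw [this]; exact h1

theorem codegree_eq {n : ℕ} (H : Finset (Finset (Fin n))) (x y : Fin n) :
    (codegree H x y : ℝ) = n - m (rel H) x y := by
  have h := codeg_ind (H := rel H) x y
  rw [Fintype.card_fin] at h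
  rw [h, codegree, card_sum]
  rfl

theorem twice_eq {n : ℕ} (H : Finset (Finset (Fin n))) (x : Fin n) :
    (twiceDegree H x : ℝ) = (n : ℝ) ^ 2 - miss (rel H) x := by
  have h1 : (twiceDegree H x : ℝ) = ∑ y : Fin n, ∑ z : Fin n, ind (rel H x y z) := by
    unfold twiceDegree
    rw [card_sum, ← univ_product_univ, sum_product]
    rfl
  have h2 : ∑ y : Fin n, ∑ z : Fin n, ind (rel H x y z) = ∑ y : Fin n, ((n : ℝ) - m (rel H) x y) := by
    refine sum_congr rfl fun y _ => ?_
    have h := codeg_ind (H := rel H) x y
    rw [Fintype.card_fin] at h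
    exact h.symm
  rw [h1, h2, sum_sub_distrib, sum_const, card_univ, Fintype.card_fin, nsmul_eq_mul, ← sq]
  rfl

theorem rpow_le_exp {t p : ℝ} (h0 : 0 ≤ 1 - t) (hp : 0 ≤ p) : (1 - t) ^ p ≤ Real.exp (-(p * t)) := by
  have h1 : 1 - t ≤ Real.exp (-t) := by
    have := Real.add_one_le_exp (-t)
    linarith
  have h2 := Real.rpow_le_rpow h0 h1 hp
  rw [← Real.exp_mul] at h2
  have : -t * p = -(p * t) := by ring
  rwa [this] at h2

/-- **Powers of the codegrees of `K_4^3`-free 3-graphs, for large exponents.**

(1) For every `ε > 0` there is `p₀` such that for every real `p ≥ p₀` and every `K_4^3`-free 3-graph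
on `n` vertices the sum of the `p`-th powers of the codegrees of the ordered pairs of vertices is at
most `(1 + ε) * 2 / (e p) * n^(p+2)`.

(2) For every real `p ≥ 1` and every `c < 2 / (e (p + 2))` there is, for all large `n`, a
`K_4^3`-free 3-graph on `n` vertices for which the sum is greater than `c * n^(p+2)`. For `p ≥ 5` the
number `2 / (e (p + 2))` is greater than the constant `(1 + 2^(p+1)) / 3^(p+1)` of Turán's
construction.

(3) For every `ε > 0` there is `p₀` such that for every real `p ≥ p₀` and every `K_4^3`-free 3-graph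
on `n` vertices the sum of the `p`-th powers of the numbers `2 deg(x) / n ^ 2` is at most
`(1 + ε) / (2 e p) * n`.

(4) For every real `p ≥ 1` and every `c < 1 / (e (2 p + 1))` there is, for all large `n`, a
`K_4^3`-free 3-graph on `n` vertices for which this sum is greater than `c * n`.

(5) For all `s > 0` at most `(2 s + 12 s √s) n ^ 2` ordered pairs of vertices of a `K_4^3`-free
3-graph on `n` vertices have codegree at least `(1 - s) n`.

(6) For all `b ≤ n` there is a `K_4^3`-free 3-graph on `n` vertices in which at least `2 b (n - b)`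
ordered pairs have codegree at least `n - b - 1`. -/
theorem result :
    (∀ ε : ℝ, 0 < ε → ∃ p₀ : ℝ, ∀ p : ℝ, p₀ ≤ p → ∀ (n : ℕ) (H : Finset (Finset (Fin n))),
      K43Free H → ∑ x : Fin n, ∑ y : Fin n, (codegree H x y : ℝ) ^ p ≤
        (1 + ε) * (2 / (Real.exp 1 * p)) * (n : ℝ) ^ (p + 2)) ∧
    (∀ p : ℝ, 1 ≤ p → ∀ c : ℝ, c < 2 / (Real.exp 1 * (p + 2)) → ∃ N : ℕ, ∀ n : ℕ, N ≤ n →
      ∃ H : Finset (Finset (Fin n)), K43Free H ∧
        c * (n : ℝ) ^ (p + 2) < ∑ x : Fin n, ∑ y : Fin n, (codegree H x y : ℝ) ^ p) ∧
    (∀ p : ℝ, 5 ≤ p → (1 + 2 ^ (p + 1)) / 3 ^ (p + 1) < 2 / (Real.exp 1 * (p + 2))) ∧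
    (∀ ε : ℝ, 0 < ε → ∃ p₀ : ℝ, ∀ p : ℝ, p₀ ≤ p → ∀ (n : ℕ) (H : Finset (Finset (Fin n))),
      K43Free H → ∑ x : Fin n, ((twiceDegree H x : ℝ) / (n : ℝ) ^ 2) ^ p ≤
        (1 + ε) * (1 / (2 * Real.exp 1 * p)) * n) ∧
    (∀ p : ℝ, 1 ≤ p → ∀ c : ℝ, c < 1 / (Real.exp 1 * (2 * p + 1)) → ∃ N : ℕ, ∀ n : ℕ, N ≤ n →
      ∃ H : Finset (Finset (Fin n)), K43Free H ∧
        c * n < ∑ x : Fin n, ((twiceDegree H x : ℝ) / (n : ℝ) ^ 2) ^ p) ∧
    (∀ s : ℝ, 0 < s → ∀ (n : ℕ) (H : Finset (Finset (Fin n))), K43Free H →
      ((univ.filter fun q : Fin n × Fin n => (1 - s) * n ≤ (codegree H q.1 q.2 : ℝ)).card : ℝ) ≤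
        (2 * s + 12 * s * √s) * (n : ℝ) ^ 2) ∧
    (∀ n b : ℕ, b ≤ n → ∃ H : Finset (Finset (Fin n)), K43Free H ∧
      2 * (b * (n - b)) ≤
        (univ.filter fun q : Fin n × Fin n => n - b - 1 ≤ codegree H q.1 q.2).card) := by
  have hexp : Real.exp (-1) = 1 / Real.exp 1 := by rw [Real.exp_neg, one_div]
  have hcases : ∀ n : ℕ, n = 0 ∨ 0 < n := fun n => Nat.eq_zero_or_pos n
  refine ⟨?_, ?_, ?_, ?_, ?_, ?_, ?_⟩
  · -- (1)
    intro ε hε
    obtain ⟨p₀, hp₀, h⟩ := pair_asym hε
    refine ⟨p₀, fun p hp n H hH => ?_⟩
    have hp0 : 0 < p := by linarith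
    rcases hcases n with rfl | hn
    · simp
      positivity
    · have hn0 : (0 : ℝ) < n := by exact_mod_cast hn
      have h1 := h p hp (Fin n) (rel H) (rel_free hH) (by rw [Fintype.card_fin]; exact hn)
      rw [Fintype.card_fin, hexp] at h1
      have h2 : ∀ x y : Fin n, (codegree H x y : ℝ) ^ p ≤
          (n : ℝ) ^ p * Real.exp (-(p * m (rel H) x y / n)) := by
        intro x y
        have h3 := codegree_eq H x y
        have h4 : (0 : ℝ) ≤ codegree H x y := Nat.cast_nonneg _
        have h5 : (codegree H x y : ℝ) = n * (1 - m (rel H) x y / n) := by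
          rw [h3]; field_simp
        have h6 : 0 ≤ 1 - m (rel H) x y / n := by
          by_contra hcon
          rw [not_le] at hcon
          have := mul_neg_of_pos_of_neg hn0 hcon
          linarith
        rw [h5, Real.mul_rpow hn0.le h6]
        refine mul_le_mul_of_nonneg_left ?_ (Real.rpow_nonneg hn0.le _)
        have := rpow_le_exp h6 hp0.le
        rwa [← mul_div_assoc] at this
      calc ∑ x : Fin n, ∑ y : Fin n, (codegree H x y : ℝ) ^ p
          ≤ ∑ x : Fin n, ∑ y : Fin n, (n : ℝ) ^ p * Real.exp (-(p * m (rel H) x y / n)) :=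
            sum_le_sum fun x _ => sum_le_sum fun y _ => h2 x y
        _ = (n : ℝ) ^ p * ∑ x : Fin n, ∑ y : Fin n, Real.exp (-(p * m (rel H) x y / n)) := by
            simp only [mul_sum]
        _ ≤ (n : ℝ) ^ p * ((1 + ε) * (2 * (1 / Real.exp 1) / p) * (n : ℝ) ^ 2) :=
            mul_le_mul_of_nonneg_left h1 (Real.rpow_nonneg hn0.le _)
        _ = _ := by
            rw [Real.rpow_add hn0, Real.rpow_two]
            field_simp
  · -- (2)
    intro p hp c hc
    have hc' : c < 2 * Real.exp (-1) / (p + 2) := by
      rw [hexp]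
      refine hc.trans_le (le_of_eq ?_)
      field_simp
    obtain ⟨N, hN⟩ := pair_low hp hc'
    exact ⟨N, fun n hn => ⟨_, ⟨aab_card, aab_free⟩, hN n hn⟩⟩
  · -- Turán
    intro p hp
    have h := turan_lt hp
    rw [hexp] at h
    refine h.trans_le (le_of_eq ?_)
    field_simp
  · -- (3)
    intro ε hε
    obtain ⟨p₀, hp₀, h⟩ := deg_asym hε
    refine ⟨p₀, fun p hp n H hH => ?_⟩
    have hp0 : 0 < p := by linarith
    rcases hcases n with rfl | hn
    · simp
    · have hn0 : (0 : ℝ) < n := by exact_mod_cast hn
      have h1 := h p hp (Fin n) (rel H) (rel_free hH) (by rw [Fintype.card_fin]; exact hn)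
      rw [Fintype.card_fin, hexp] at h1
      refine (sum_le_sum fun x _ => ?_).trans (h1.trans (le_of_eq ?_))
      · have h4 : (0 : ℝ) ≤ (twiceDegree H x : ℝ) / (n : ℝ) ^ 2 := by positivity
        have h5 : (twiceDegree H x : ℝ) / (n : ℝ) ^ 2 = 1 - miss (rel H) x / (n : ℝ) ^ 2 := by
          rw [twice_eq]; field_simp
        rw [h5] at h4 ⊢
        have := rpow_le_exp h4 hp0.le
        rwa [← mul_div_assoc] at this
      · field_simp
  · -- (4)
    intro p hp c hc
    have hc' : c < Real.exp (-1) / (2 * p + 1) := by
      rw [hexp]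
      refine hc.trans_le (le_of_eq ?_)
      field_simp
    obtain ⟨N, hN⟩ := deg_low hp hc'
    exact ⟨N, fun n hn => ⟨_, ⟨aab_card, aab_free⟩, hN n hn⟩⟩
  · -- (5)
    intro s hs n H hH
    have hsq : 0 < √s := Real.sqrt_pos.2 hs
    have hsq2 : √s * √s = s := Real.mul_self_sqrt hs.le
    rcases le_or_gt s (1 / 4) with h4 | h4
    · rcases hcases n with rfl | hn
      · simp
      · have h1 := count (rel_free hH) (l := 2 * √s) hs (by
            have : √s ≤ 1 / 2 := by
              rw [Real.sqrt_le_left (by norm_num)]
              linarith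
            nlinarith) (by rw [Fintype.card_fin]; exact hn)
        rw [Fintype.card_fin] at h1
        refine le_trans ?_ (h1.trans (le_of_eq ?_))
        · rw [card_sum, ← univ_product_univ, sum_product]
          refine sum_le_sum fun x _ => ?_
          rw [← card_sum]
          unfold k
          refine Nat.cast_le.2 (card_le_card fun y hy => ?_)
          have h2 := (mem_filter.1 hy).2
          rw [mem_nb]
          rw [codegree_eq] at h2
          linarith
        · have : 8 * s ^ 2 / (2 * √s) = 4 * s * √s := by
            rw [div_eq_iff (by positivity)]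
            nlinarith
          rw [this]
          ring
    · have h1 : ((univ.filter fun q : Fin n × Fin n =>
          (1 - s) * n ≤ (codegree H q.1 q.2 : ℝ)).card : ℝ) ≤ (n : ℝ) ^ 2 := by
        have h2 := card_le_univ (univ.filter fun q : Fin n × Fin n =>
          (1 - s) * n ≤ (codegree H q.1 q.2 : ℝ))
        rw [Fintype.card_prod, Fintype.card_fin] at h2
        have h3 : ((univ.filter fun q : Fin n × Fin n =>
          (1 - s) * n ≤ (codegree H q.1 q.2 : ℝ)).card : ℝ) ≤ ((n * n : ℕ) : ℝ) := by
          exact_mod_cast h2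
        rw [sq]
        push_cast at h3
        exact h3
      refine h1.trans ?_
      have h5 : 1 / 2 ≤ √s := by
        rw [Real.le_sqrt' (by norm_num)]
        linarith
      have h6 : (1 : ℝ) ≤ 2 * s + 12 * s * √s := by nlinarith
      nlinarith [sq_nonneg (n : ℝ)]
  · -- (6)
    intro n b hb
    refine ⟨aab n b, ⟨aab_card, aab_free⟩, ?_⟩
    have h1 := sum_ge hb (fun x y => ind (n - b - 1 ≤ codegree (aab n b) x y)) 1
      (fun x y => ind_nonneg _)
      (fun x y hx hy =>
        (ind_true (show n - b - 1 ≤ codegree (aab n b) x y from aab_codeg hx hy)).ge)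
      (fun x y hx hy =>
        (ind_true (show n - b - 1 ≤ codegree (aab n b) y x from aab_codeg' hx hy)).ge)
    have h2 : ((univ.filter fun q : Fin n × Fin n =>
        n - b - 1 ≤ codegree (aab n b) q.1 q.2).card : ℝ) =
        ∑ x : Fin n, ∑ y : Fin n, ind (n - b - 1 ≤ codegree (aab n b) x y) := by
      rw [card_sum, ← univ_product_univ, sum_product]
    rw [← h2, mul_one] at h1
    exact_mod_cast h1

end Pool.Agent.Results.MP_f1799f_co.LargeCodegreePowers
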