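import Pool.Agent.Run7.h804.LP.Core
import Pool.Agent.Results.MP_ec0960_co.LocalColourings

/-!
# Turán's density `5/9` for the 3-graphs of local colourings

A local colouring of `n` vertices: every vertex colours some of the other vertices, with any number
of colours, and also the pairs of vertices which do not colour each other have colours. The edges of
its 3-graph are the triples such that no two of the vertices have the same colour at the third, and
such that, if no vertex of it colours another, the three pairs have not all the same colour.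

A conflict consists of two vertices `x`, `y` which colour each other, a vertex `a` which has the
colour of `y` at `x`, but not the colour of `x` at `y`, and a vertex `b` which has the colour of `x`
at `y`, but not the colour of `y` at `x`. If the 3-graph contains `o(n⁴)` copies of `K_4^3` and there
are `o(n⁴)` conflicts then it has at most `(5/9 + o(1)) C(n,3)` edges; and `5/9` is attained without
any copy of `K_4^3` and any conflict, for every `n` with Turán's number of edges.

Special cases: 3-graphs of arc-coloured tournaments and oriented graphs (no two vertices colour each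
other); the triples with two different colours of a colouring of the pairs (no vertex colours
another); the rainbow triangles of an edge-colouring of `K_n` (every vertex gives to every other one
the colour of the edge; the copies of `K_4^3` are the properly coloured `K_4` and the conflicts are
the induced paths and cycles on four vertices of the colour classes); and all mixtures. Classes of
`o(n)` vertices with the same colour at a vertex do not matter.

The proof. If two vertices colour each other, only the colour which occurs more often (at its vertex)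
is kept. A double count shows that few triples become edges; three vertices cannot lose their
colours cyclically. The exact theorem for the remaining local colourings, in which no two vertices
colour each other, is applied to random sets of vertices of bounded size.
-/

set_option autoImplicit false
open Finset
open scoped Classical

namespace Pool.Agent.Results.MP_f1799f_co.LocalColourings

variable {n : ℕ}

/-- The edges of the 3-graph of a local colouring: `A x y` says that `x` colours `y`, `col x y` is the
colour, and `χ x y` is the colour of the pair `x`, `y` if neither colours the other. -/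
noncomputable def edges (A : Fin n → Fin n → Prop) (col χ : Fin n → Fin n → ℕ) :
    Finset (Finset (Fin n)) :=
  (univ.powersetCard 3).filter fun e : Finset (Fin n) =>
    (∀ x ∈ e, ∀ y ∈ e, ∀ z ∈ e, y ≠ z → A x y → A x z → col x y ≠ col x z) ∧
      ¬ ∃ c : ℕ, ∀ x ∈ e, ∀ y ∈ e, x ≠ y → ¬ A x y ∧ χ x y = c

/-- the copies of `K_4^3` in `H` -/
noncomputable def tetrahedra (H : Finset (Finset (Fin n))) : Finset (Finset (Fin n)) :=
  (univ.powersetCard 4).filter fun Q : Finset (Fin n) => ∀ e ⊆ Q, e.card = 3 → e ∈ H

/-- The conflicts `((a, x), (y, b))`: `x` and `y` colour each other, `a` has the colour of `y` at `x`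
and not the colour of `x` at `y`, and `b` has the colour of `x` at `y` and not the colour of `y` at
`x`. -/
noncomputable def conflicts (A : Fin n → Fin n → Prop) (col : Fin n → Fin n → ℕ) :
    Finset ((Fin n × Fin n) × (Fin n × Fin n)) :=
  univ.filter fun p =>
    A p.1.2 p.2.1 ∧ A p.2.1 p.1.2 ∧
    (p.1.1 ≠ p.2.1 ∧ A p.1.2 p.1.1 ∧ col p.1.2 p.1.1 = col p.1.2 p.2.1 ∧
      ¬ (A p.2.1 p.1.1 ∧ col p.2.1 p.1.1 = col p.2.1 p.1.2)) ∧
    p.2.2 ≠ p.1.2 ∧ A p.2.1 p.2.2 ∧ col p.2.1 p.2.2 = col p.2.1 p.1.2 ∧
      ¬ (A p.1.2 p.2.2 ∧ col p.1.2 p.2.2 = col p.1.2 p.2.1)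

/-- Turán's number, the least number of triples which meet every four vertices in his construction:
`s(s-1)(2s-1)`, `s²(2s-1)`, `s²(2s+1)` for `n = 3s, 3s+1, 3s+2`. -/
def turan (n : ℕ) : ℕ :=
  if n % 3 = 0 then (n / 3) * (n / 3 - 1) * (2 * (n / 3) - 1)
  else if n % 3 = 1 then (n / 3) ^ 2 * (2 * (n / 3) - 1)
  else (n / 3) ^ 2 * (2 * (n / 3) + 1)

open Pool.Agent.Run7.h804

theorem mem_edges {A : Fin n → Fin n → Prop} {col χ : Fin n → Fin n → ℕ} {e : Finset (Fin n)} :
    e ∈ edges A col χ ↔ e.card = 3 ∧ ¬ MC.Tri A col χ e := by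
  unfold edges MC.Tri
  rw [mem_filter, mem_powersetCard, not_or]
  constructor
  · rintro ⟨⟨_, h1⟩, h2, h3⟩
    refine ⟨h1, ?_, h3⟩
    rintro ⟨x, hx, y, hy, z, hz, hyz, a, b, c⟩
    exact h2 x hx y hy z hz hyz a b c
  · rintro ⟨h1, h2, h3⟩
    refine ⟨⟨subset_univ _, h1⟩, ?_, h3⟩
    intro x hx y hy z hz hyz a b c
    exact h2 ⟨x, hx, y, hy, z, hz, hyz, a, b, c⟩

theorem card_edges (A : Fin n → Fin n → Prop) (col χ : Fin n → Fin n → ℕ) :
    (edges A col χ).card + (MC.T A col χ).card = n.choose 3 := by
  have h1 := card_filter_add_card_filter_not (s := (univ : Finset (Fin n)).powersetCard 3)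
    (fun e => MC.Tri A col χ e)
  rw [card_powersetCard, card_univ, Fintype.card_fin] at h1
  have h2 : edges A col χ = (univ.powersetCard 3).filter (fun e => ¬ MC.Tri A col χ e) := by
    ext e
    rw [mem_edges, mem_filter, mem_powersetCard]
    constructor
    · rintro ⟨h1, h2⟩
      exact ⟨⟨subset_univ _, h1⟩, h2⟩
    · rintro ⟨⟨_, h1⟩, h2⟩
      exact ⟨h1, h2⟩
  rw [h2]
  have h3 : (MC.T A col χ) = (univ.powersetCard 3).filter (fun e => MC.Tri A col χ e) := rfl
  rw [h3]
  omega

theorem tetrahedra_eq (A : Fin n → Fin n → Prop) (col χ : Fin n → Fin n → ℕ) :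
    tetrahedra (edges A col χ) = LP.unc A col χ := by
  ext Q
  unfold tetrahedra
  rw [LP.mem_unc, mem_filter, mem_powersetCard]
  constructor
  · rintro ⟨⟨_, h1⟩, h2⟩
    refine ⟨h1, ?_⟩
    rintro ⟨e, heQ, he3, he⟩
    exact (mem_edges.1 (h2 e heQ he3)).2 he
  · rintro ⟨h1, h2⟩
    refine ⟨⟨subset_univ _, h1⟩, ?_⟩
    intro e heQ he3
    rw [mem_edges]
    exact ⟨he3, fun he => h2 ⟨e, heQ, he3, he⟩⟩

theorem conflicts_eq (A : Fin n → Fin n → Prop) (col : Fin n → Fin n → ℕ) :
    conflicts A col = LP.conf A col := by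
  ext ⟨⟨a, x⟩, ⟨y, b⟩⟩
  rw [LP.mem_conf, LP.mem_pr, LP.mem_pr]
  unfold conflicts
  rw [mem_filter]
  simp only [mem_univ, true_and]
  constructor
  · rintro ⟨h1, h2, ⟨h3, h4, h5, h6⟩, h7, h8, h9, h10⟩
    exact ⟨h1, h2, ⟨h4, h3, h5, h6⟩, h8, h7, h9, h10⟩
  · rintro ⟨h1, h2, ⟨h4, h3, h5, h6⟩, h8, h7, h9, h10⟩
    exact ⟨h1, h2, ⟨h3, h4, h5, h6⟩, h7, h8, h9, h10⟩

open Pool.Agent.Results.MP_ec0960_co in
/-- **Turán's density for the 3-graphs of local colourings.** (1) For every `ε > 0` there are `δ > 0`
and `n₀` such that for `n ≥ n₀` the 3-graph of a local colouring of `n` vertices, and every 3-graph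
contained in it, has at most `(5/9 + ε) C(n,3)` edges if there are at most `δ n⁴` copies of `K_4^3`
and at most `δ n⁴` conflicts. (2) For every `n` some local colouring has no conflict and its 3-graph
has no `K_4^3` and `C(n,3) - turan n` edges. -/
theorem result :
    (∀ ε : ℝ, 0 < ε → ∃ δ : ℝ, 0 < δ ∧ ∃ n₀ : ℕ, ∀ n : ℕ, n₀ ≤ n →
      ∀ (A : Fin n → Fin n → Prop) (col χ : Fin n → Fin n → ℕ) (H : Finset (Finset (Fin n))),
      (∀ x, ¬ A x x) → (∀ x y, χ x y = χ y x) → H ⊆ edges A col χ →
      ((tetrahedra (edges A col χ)).card : ℝ) ≤ δ * (n : ℝ) ^ 4 →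
      ((conflicts A col).card : ℝ) ≤ δ * (n : ℝ) ^ 4 →
      (H.card : ℝ) ≤ (5 / 9 + ε) * (n.choose 3 : ℝ)) ∧
    (∀ n : ℕ, ∃ (A : Fin n → Fin n → Prop) (col χ : Fin n → Fin n → ℕ),
      (∀ x, ¬ A x x) ∧ (∀ x y, χ x y = χ y x) ∧ tetrahedra (edges A col χ) = ∅ ∧
      conflicts A col = ∅ ∧ (edges A col χ).card + turan n = n.choose 3) := by
  constructor
  · intro ε hε
    obtain ⟨δ, hδ, n₀, h⟩ := LP.robustL ε hε
    refine ⟨δ, hδ, n₀, ?_⟩
    intro n hn A col χ H hA hs hH h4 hP
    rw [tetrahedra_eq] at h4
    rw [conflicts_eq] at hP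
    have h1 := h n hn A col χ hA hs h4 hP
    have h2 : ((edges A col χ).card : ℝ) + ((MC.T A col χ).card : ℝ) = (n.choose 3 : ℝ) := by
      exact_mod_cast card_edges A col χ
    have h3 : (H.card : ℝ) ≤ ((edges A col χ).card : ℝ) := by exact_mod_cast card_le_card hH
    linarith
  · intro n
    obtain ⟨A, col, χ, ⟨hA, hs, hK, hcov⟩, hc⟩ := LocalColourings.attained n
    refine ⟨A, col, χ, hA, hs, ?_, ?_, ?_⟩
    · rw [tetrahedra_eq, eq_empty_iff_forall_notMem]
      intro Q hQ
      rw [LP.mem_unc] at hQ
      obtain ⟨e, he, heQ⟩ := hcov Q hQ.1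
      have he' := mem_filter.1 he
      exact hQ.2 ⟨e, heQ, (mem_powersetCard.1 he'.1).2, he'.2⟩
    · rw [eq_empty_iff_forall_notMem]
      rintro ⟨⟨a, x⟩, ⟨y, b⟩⟩ hp
      exact hK a x y b (mem_filter.1 hp).2
    · have h1 := card_edges A col χ
      have h2 : (MC.T A col χ).card = (LocalColourings.hyperedges A col χ).card := by
        congr 1
        ext e
        rw [MC.mem_T]
        unfold LocalColourings.hyperedges
        rw [mem_filter, mem_powersetCard]
        constructor
        · rintro ⟨h1, h2⟩
          exact ⟨⟨subset_univ _, h1⟩, h2⟩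
        · rintro ⟨h1, h2⟩
          exact ⟨h1.2, h2⟩
      have h3 : turan n = LocalColourings.f n := rfl
      omega

end Pool.Agent.Results.MP_f1799f_co.LocalColourings
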