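import Pool.Agent.Run7.h211.PW.Main
import Pool.Agent.TH773.ST.Tur

/-!
# Turán's `(3,4)`-problem: switching the neighbourhood of one pair

Take Turán's construction on six vertices with the parts given by `c`, and change the neighbourhood
of one pair `x, y` of vertices as follows. If `x, y` are in one part, then the pair has the vertices
of the next part as neighbours, and now it gets the vertices of its own part instead. If `x` is in a
part and `y` in the next one, then the neighbours are the vertices of the part of `x` and of the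
third part, and now they are the vertices of the parts of `x` and `y`. (For equal parts these changes
nearly keep the number of edges, and they create no `K_4^3`.) Up to isomorphism there are nine
3-graphs `A i` of the first kind and ten 3-graphs `B j` of the second kind which are not induced in
Turán's construction.

Turán's conjecture says that `K_4^3`-free 3-graphs have density at most `5/9 + o(1)`. Here it is
proved, with stability, for 33 pairs `(A i, B j)`: if a `K_4^3`-free 3-graph has few induced copies of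
`A i` and of `B j`, then its density is at most `5/9 + o(1)`, and if the density is close to `5/9`
then the 3-graph is close to Turán's construction. All nine `A i` occur in these pairs with `B 7` and
with `B 9`. So a `K_4^3`-free 3-graph whose density is at least `5/9 - o(1)` and which is not close to
Turán's construction (in particular, a counterexample to Turán's conjecture) has a positive
density of each of the nine 3-graphs `A i`, or of both `B 7` and `B 9`.

The 18 pairs with `i ≤ 4`, and the pair `(6, 3)`, are new (17 and 1); the 15 other pairs were known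
(exactly and for large `n`, see `SixVertexPairs` and `SixVertexCompanions`). The 3-graphs `A 0, ...,
A 4` and `B 3` have pairs of vertices which are in no edge, so these classes are not closed under the
cloning of vertices.

The proof uses flag algebra certificates on six vertices, one for each pair, with a slack for all
3-graphs other than those of Turán's construction.
-/

set_option autoImplicit false
set_option maxRecDepth 100000
set_option maxHeartbeats 4000000
open Finset
open scoped Classical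

namespace Pool.Agent.Results.MP_f1799f_co.PairSwitches
open Pool.Agent.TH773.Turan34

/-- Turán's construction for the parts `c`, with the neighbourhood of the pair `x, y` changed: the
triples which do not contain both `x` and `y` are edges as in Turán's construction, and `x, y, z` is
an edge if and only if `z` is in the part of `x` or in the part of `y`. -/
def sw (c : Fin 6 → Fin 3) (x y : Fin 6) : Finset (Finset (Fin 6)) :=
  ((univ : Finset (Fin 6)).powersetCard 3).filter fun t =>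
    if x ∈ t ∧ y ∈ t then ∃ z ∈ t, z ≠ x ∧ z ≠ y ∧ (c z = c x ∨ c z = c y) else t ∈ turan c

/-- The 3-graph `sw c x y`, where `c` is given by the list of the parts of the vertices `0, ..., 5`. -/
def gr (w : List ℕ × ℕ × ℕ) : Finset (Finset (Fin 6)) :=
  sw (fun v => Fin.ofNat 3 (w.1.getD v 0)) (Fin.ofNat 6 w.2.1) (Fin.ofNat 6 w.2.2)

/-- Parts, `x` and `y` for the nine 3-graphs of the first kind (`x` and `y` are in one part). -/
def dataA : List (List ℕ × ℕ × ℕ) :=
  [([0, 0, 0, 0, 0, 2], 0, 1), ([0, 0, 0, 1, 1, 1], 1, 2), ([0, 2, 2, 2, 1, 1], 4, 5),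
    ([0, 1, 1, 0, 1, 1], 1, 2), ([0, 0, 0, 0, 1, 1], 2, 3), ([0, 2, 2, 2, 2, 1], 1, 2),
    ([0, 2, 1, 1, 0, 0], 4, 5), ([0, 2, 2, 2, 0, 0], 0, 4), ([0, 1, 2, 2, 0, 0], 4, 5)]

/-- Parts, `x` and `y` for the ten 3-graphs of the second kind (`y` is in the part after that of
`x`). -/
def dataB : List (List ℕ × ℕ × ℕ) :=
  [([0, 2, 2, 2, 2, 1], 0, 5), ([0, 0, 1, 1, 1, 1], 0, 2), ([0, 2, 2, 2, 1, 2], 5, 0),
    ([0, 0, 0, 1, 1, 1], 0, 3), ([0, 2, 1, 1, 1, 0], 1, 5), ([0, 0, 2, 2, 2, 1], 1, 5),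
    ([0, 1, 1, 2, 2, 2], 5, 0), ([0, 0, 2, 2, 1, 2], 5, 1), ([0, 1, 1, 1, 2, 2], 0, 3),
    ([0, 2, 1, 1, 2, 0], 4, 5)]

/-- The nine 3-graphs of the first kind. -/
def A (i : Fin 9) : Finset (Finset (Fin 6)) := gr (dataA.getD i ([], 0, 0))

/-- The ten 3-graphs of the second kind. -/
def B (j : Fin 10) : Finset (Finset (Fin 6)) := gr (dataB.getD j ([], 0, 0))

/-- The indices `j` of the partners of `A 0`, ..., `A 8`. -/
def partners : List (List ℕ) :=
  [[6, 7, 9], [2, 6, 7, 9], [7, 9], [6, 7, 9], [5, 6, 7, 8, 9], [6, 7, 9], [3, 4, 5, 6, 7, 8, 9],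
    [7, 9], [6, 7, 8, 9]]

/-- `(A i, B j)` is one of the 33 pairs. -/
def Pair (i : Fin 9) (j : Fin 10) : Prop := (j : ℕ) ∈ partners.getD i []

instance (i : Fin 9) (j : Fin 10) : Decidable (Pair i j) := by unfold Pair; infer_instance

/-- `H` is a 3-graph without `K_4^3`. -/
def Free {n : ℕ} (H : Finset (Finset (Fin n))) : Prop := (∀ e ∈ H, e.card = 3) ∧ K43Free H

/-- The inequality for `A i`, `B j` and the division `g`. -/
def Ineq (i : Fin 9) (j : Fin 10) {n : ℕ} (H : Finset (Finset (Fin n))) (g : Fin n → Fin 3) : Prop :=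
  n ^ 3 * (symmDiff H (turan g)).card + 5806080000 * (n ^ 3 * H.card) ≤
    537600000 * n ^ 6 + 418424832000 * copies [A i, B j] H + 8717184000 * n ^ 5

/-- The density of `H` is at least `5/9 - δ`. -/
def Dense (δ : ℝ) {n : ℕ} (H : Finset (Finset (Fin n))) : Prop :=
  (5 / 9 - δ) * (n.choose 3 : ℝ) ≤ H.card

/-- `H` differs from Turán's construction, for some division of the vertices, in at most `ε n³`
triples. -/
def Near (ε : ℝ) {n : ℕ} (H : Finset (Finset (Fin n))) : Prop :=
  ∃ g : Fin n → Fin 3, ((symmDiff H (turan g)).card : ℝ) ≤ ε * (n : ℝ) ^ 3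

/-- At least `δ n⁶` sets of vertices induce the 3-graph `F`. -/
def Many (δ : ℝ) (F : Finset (Finset (Fin 6))) {n : ℕ} (H : Finset (Finset (Fin n))) : Prop :=
  δ * (n : ℝ) ^ 6 ≤ copies [F] H

/-- the masks of the first kind -/
def mA : Fin 9 → ℕ
  | 0 => 19
  | 1 => 3127
  | 2 => 11447
  | 3 => 12486
  | 4 => 32252
  | 5 => 77054
  | 6 => 96747
  | 7 => 119623
  | 8 => 120663

/-- the masks of the second kind -/
def mB : Fin 10 → ℕ
  | 0 => 183
  | 1 => 3127
  | 2 => 11447
  | 3 => 15614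
  | 4 => 77147
  | 5 => 77292
  | 6 => 78078
  | 7 => 97788
  | 8 => 122742
  | 9 => 228027

theorem msk_A (i : Fin 9) : Pool.Agent.TH773.FA.Msk (mA i) (A i) := by
  fin_cases i <;> (unfold Pool.Agent.TH773.FA.Msk; decide +kernel)

theorem msk_B (j : Fin 10) : Pool.Agent.TH773.FA.Msk (mB j) (B j) := by
  fin_cases j <;> (unfold Pool.Agent.TH773.FA.Msk; decide +kernel)

open Pool.Agent.TH773.ST (Rf mem_turan mem_turan_comp nocol cpB cp_of_copy b3_true)
open Pool.Agent.H37R3.Cop (Copy ti)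
open Pool.Agent.H37R3.Pen (bt)

theorem pairs_prs : ∀ i j, Pair i j → (mA i, mB j) ∈ Pool.Agent.Run7.h211.PW.prs := by decide

/-- the inequality -/
theorem ineq {n : ℕ} (H : Finset (Finset (Fin n))) (hH : Free H) :
    ∃ g : Fin n → Fin 3, ∀ i j, Pair i j → Ineq i j H g := by
  obtain ⟨g, hg⟩ := Pool.Agent.Run7.h211.PW.main_ineq H hH.1 hH.2
  refine ⟨g, fun i j hp => hg _ (pairs_prs i j hp) _ ?_⟩
  intro m hm
  simp only [List.mem_cons, List.not_mem_nil, or_false] at hm
  rcases hm with rfl | rfl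
  · exact ⟨A i, by simp, msk_A i⟩
  · exact ⟨B j, by simp, msk_B j⟩

theorem copies_pair {n : ℕ} (F F' : Finset (Finset (Fin 6))) (H : Finset (Finset (Fin n))) :
    copies [F, F'] H ≤ copies [F] H + copies [F'] H := by
  unfold copies
  refine le_trans (card_le_card ?_) (card_union_le _ _)
  intro S hS
  obtain ⟨-, X, hX, h⟩ := mem_filter.1 hS
  rw [mem_union]
  simp only [List.mem_cons, List.not_mem_nil, or_false] at hX
  rcases hX with rfl | rfl
  · exact Or.inl (mem_filter.2 ⟨mem_univ _, X, by simp, h⟩)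
  · exact Or.inr (mem_filter.2 ⟨mem_univ _, X, by simp, h⟩)

theorem nocol_A (i : Fin 9) : nocol (mA i) = true := by
  fin_cases i <;> decide +kernel

theorem nocol_B (j : Fin 10) : nocol (mB j) = true := by
  fin_cases j <;> decide +kernel

/-- a 3-graph whose mask has no colouring is not induced in Turán's construction -/
theorem turan_none {m : ℕ} {F : Finset (Finset (Fin 6))} (hm : Pool.Agent.TH773.FA.Msk m F)
    (hn : nocol m = true) {n : ℕ} (g : Fin n → Fin 3) : copies [F] (turan g) = 0 := by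
  unfold copies
  rw [card_eq_zero, filter_eq_empty_iff]
  rintro S - ⟨X, hX, f, hf, -, hfe⟩
  rw [List.mem_singleton] at hX
  subst hX
  have hc : Copy Rf m (g ∘ f) := by
    intro i j k hij hjk
    have hc3 : ({i, j, k} : Finset (Fin 6)).card = 3 := by
      rw [card_insert_of_notMem, card_insert_of_notMem, card_singleton]
      · simpa using hjk.ne
      · simpa using ⟨hij.ne, (hij.trans hjk).ne⟩
    have h1 := hfe _ hc3
    rw [mem_turan_comp g f hf, mem_turan hij.ne (hij.trans hjk).ne hjk.ne, ← hm i j k hij hjk] at h1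
    have hb : bt m (ti i j k) = 0 ∨ bt m (ti i j k) = 1 := by
      unfold bt
      exact Nat.mod_two_eq_zero_or_one _
    rcases Pool.Agent.TH773.ST.Rf_sy.b ((g ∘ f) i) ((g ∘ f) j) ((g ∘ f) k) with h2 | h2 <;>
      rcases hb with h4 | h4 <;> rw [h2, h4] at h1 ⊢ <;> simp at h1
  have h1 := b3_true (b3_true (b3_true (b3_true (b3_true (b3_true hn ((g ∘ f) 0)) ((g ∘ f) 1))
    ((g ∘ f) 2)) ((g ∘ f) 3)) ((g ∘ f) 4)) ((g ∘ f) 5)
  rw [cp_of_copy hc] at h1
  exact absurd h1 (by decide)

theorem choose3 {n : ℕ} (hn : 6 ≤ n) : (n : ℝ) ^ 3 ≤ 12 * (n.choose 3 : ℝ) ∧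
    (n : ℝ) ^ 3 ≤ 6 * (n.choose 3 : ℝ) + 3 * (n : ℝ) ^ 2 := by
  have h1 : n.descFactorial 3 = Nat.factorial 3 * n.choose 3 :=
    Nat.descFactorial_eq_factorial_mul_choose n 3
  obtain ⟨m, rfl⟩ : ∃ m, n = m + 6 := ⟨n - 6, by omega⟩
  have h2 : (m + 6).descFactorial 3 = (m + 4) * ((m + 5) * (m + 6)) := by
    rw [Nat.descFactorial_succ, Nat.descFactorial_succ, Nat.descFactorial_succ,
      Nat.descFactorial_zero]
    have e1 : m + 6 - 0 = m + 6 := by omega
    have e2 : m + 6 - 1 = m + 5 := by omega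
    have e3 : m + 6 - 2 = m + 4 := by omega
    rw [e1, e2, e3, mul_one]
  have h3 : (6 : ℝ) * (((m + 6).choose 3 : ℕ) : ℝ) = ((m : ℝ) + 4) * (((m : ℝ) + 5) * ((m : ℝ) + 6)) := by
    have h4 : 6 * (m + 6).choose 3 = (m + 4) * ((m + 5) * (m + 6)) := by
      rw [← h2, h1]; rfl
    exact_mod_cast h4
  have hm : (0 : ℝ) ≤ m := by positivity
  push_cast
  constructor
  · nlinarith [pow_nonneg hm 3, pow_nonneg hm 2]
  · nlinarith [pow_nonneg hm 3, pow_nonneg hm 2]

theorem dens {ε : ℝ} (hε : 0 < ε) : ∃ δ : ℝ, 0 < δ ∧ ∃ n0 : ℕ, 0 < n0 ∧ ∀ n, n0 ≤ n →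
    ∀ H : Finset (Finset (Fin n)), Free H → ∀ i j, Pair i j →
      (copies [A i, B j] H : ℝ) ≤ δ * (n : ℝ) ^ 6 →
        (H.card : ℝ) ≤ (5 / 9 + ε) * (n.choose 3 : ℝ) ∧ (Dense δ H → Near ε H) := by
  obtain ⟨n1, hn1⟩ := exists_nat_ge ((10 : ℝ) ^ 11 / ε)
  refine ⟨ε / 10 ^ 12, by positivity, n1 + 6, by omega, fun n hn H hH i j hp hc => ?_⟩
  obtain ⟨g, hg⟩ := ineq H hH
  have h0 := hg i j hp
  unfold Ineq at h0
  have hn6 : 6 ≤ n := by omega
  obtain ⟨c1, c2⟩ := choose3 hn6
  have c3 : 6 * (n.choose 3 : ℝ) ≤ (n : ℝ) ^ 3 := by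
    have h1 : n.descFactorial 3 = Nat.factorial 3 * n.choose 3 :=
      Nat.descFactorial_eq_factorial_mul_choose n 3
    have h2 : n.descFactorial 3 ≤ n ^ 3 := Nat.descFactorial_le_pow n 3
    rw [h1] at h2
    have h3 : 6 * n.choose 3 ≤ n ^ 3 := h2
    exact_mod_cast h3
  have hx0 : (0 : ℝ) < n := by
    have : (6 : ℝ) ≤ n := by exact_mod_cast hn6
    linarith
  have hx1 : (10 : ℝ) ^ 11 ≤ ε * n := by
    rw [div_le_iff₀ hε] at hn1
    have : (n1 : ℝ) ≤ n := by exact_mod_cast (by omega : n1 ≤ n)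
    nlinarith
  set D := (symmDiff H (turan g)).card with hD
  set N := copies [A i, B j] H with hN
  have g1 : (n : ℝ) ^ 3 * D + 5806080000 * ((n : ℝ) ^ 3 * H.card) ≤
      537600000 * (n : ℝ) ^ 6 + 418424832000 * N + 8717184000 * (n : ℝ) ^ 5 := by
    exact_mod_cast h0
  have hx3 : (0 : ℝ) < (n : ℝ) ^ 3 := by positivity
  have g2 : (D : ℝ) + 5806080000 * H.card ≤
      537600000 * (n : ℝ) ^ 3 + 418424832000 * (ε / 10 ^ 12) * (n : ℝ) ^ 3 +
        8717184000 * (n : ℝ) ^ 2 := by
    refine le_of_mul_le_mul_left ?_ hx3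
    have e1 : (n : ℝ) ^ 3 * (537600000 * (n : ℝ) ^ 3 + 418424832000 * (ε / 10 ^ 12) * (n : ℝ) ^ 3 +
        8717184000 * (n : ℝ) ^ 2) = 537600000 * (n : ℝ) ^ 6 +
        418424832000 * (ε / 10 ^ 12 * (n : ℝ) ^ 6) + 8717184000 * (n : ℝ) ^ 5 := by ring
    rw [e1]
    nlinarith
  have hD0 : (0 : ℝ) ≤ D := by positivity
  have q1 : (10 : ℝ) ^ 11 * (n : ℝ) ^ 2 ≤ ε * (n : ℝ) ^ 3 := by
    have := mul_le_mul_of_nonneg_right hx1 (by positivity : (0 : ℝ) ≤ (n : ℝ) ^ 2)
    linarith [show (ε * n) * (n : ℝ) ^ 2 = ε * (n : ℝ) ^ 3 by ring]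
  have q0 : 0 < ε * (n : ℝ) ^ 3 := by positivity
  have q2 : ε * (n : ℝ) ^ 3 ≤ ε * (12 * (n.choose 3 : ℝ)) := mul_le_mul_of_nonneg_left c1 hε.le
  have q3 : ε * (6 * (n.choose 3 : ℝ)) ≤ ε * (n : ℝ) ^ 3 := mul_le_mul_of_nonneg_left c3 hε.le
  constructor
  · nlinarith
  · intro hl
    unfold Dense at hl
    refine ⟨g, ?_⟩
    nlinarith

theorem cols : ∀ i : Fin 9, Pair i 7 ∧ Pair i 9 := by decide

theorem far {ε : ℝ} (hε : 0 < ε) : ∃ δ : ℝ, 0 < δ ∧ ∃ n0 : ℕ, 0 < n0 ∧ ∀ n, n0 ≤ n →
    ∀ H : Finset (Finset (Fin n)), Free H →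
      (∀ i j, Pair i j → (copies [A i, B j] H : ℝ) ≤ δ * (n : ℝ) ^ 6 →
        (H.card : ℝ) ≤ (5 / 9 + ε) * (n.choose 3 : ℝ) ∧ (Dense δ H → Near ε H)) ∧
      (Dense δ H → ¬ Near ε H → ∀ i j, Pair i j → Many δ (A i) H ∨ Many δ (B j) H) := by
  obtain ⟨δ, hδ, n0, h0, hd⟩ := dens hε
  have hle : ∀ {n : ℕ} {H : Finset (Finset (Fin n))}, Dense (δ / 2) H → Dense δ H := by
    intro n H h
    refine le_trans ?_ h
    have : (0 : ℝ) ≤ (n.choose 3 : ℝ) := by positivity
    nlinarith
  refine ⟨δ / 2, by positivity, n0, h0, fun n hn H hH => ⟨fun i j hp hc => ?_,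
    fun hl hf i j hp => ?_⟩⟩
  · have h2 : (copies [A i, B j] H : ℝ) ≤ δ * (n : ℝ) ^ 6 := by
      have : (0 : ℝ) ≤ (n : ℝ) ^ 6 := by positivity
      nlinarith
    obtain ⟨h3, h4⟩ := hd n hn H hH i j hp h2
    exact ⟨h3, fun h => h4 (hle h)⟩
  · by_contra hc
    unfold Many at hc
    push Not at hc
    obtain ⟨ha, hb⟩ := hc
    have h1 : (copies [A i, B j] H : ℝ) ≤ copies [A i] H + copies [B j] H := by
      exact_mod_cast copies_pair (A i) (B j) H
    have h2 : (copies [A i, B j] H : ℝ) ≤ δ * (n : ℝ) ^ 6 := by linarith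
    exact hf ((hd n hn H hH i j hp h2).2 (hle hl))

/-- (1) Every 3-graph `H` without `K_4^3` has a division `g` of the vertices for which the inequality
holds for all 33 pairs. (2) For large `n`: if for one pair at most `δ n⁶` sets of vertices induce
`A i` or `B j`, then `|H| ≤ (5/9 + ε) C(n,3)`, and `H` is near to Turán's construction if it is dense.
(3) For large `n`, if `H` is dense and not near to Turán's construction, then many sets of vertices
induce `A i` or many sets induce `B j`, for each of the 33 pairs; so many sets induce `A i`, for all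
nine `i`, or many sets induce `B 7` and many sets induce `B 9`. (4) `A i` and `B j` are not induced in
Turán's construction. -/
theorem result :
    (∀ (n : ℕ) (H : Finset (Finset (Fin n))), Free H → ∃ g : Fin n → Fin 3,
      ∀ i j, Pair i j → Ineq i j H g) ∧
    (∀ ε : ℝ, 0 < ε → ∃ δ : ℝ, 0 < δ ∧ ∃ n0 : ℕ, ∀ n, n0 ≤ n →
      ∀ H : Finset (Finset (Fin n)), Free H →
        (∀ i j, Pair i j → (copies [A i, B j] H : ℝ) ≤ δ * (n : ℝ) ^ 6 →
          (H.card : ℝ) ≤ (5 / 9 + ε) * (n.choose 3 : ℝ) ∧ (Dense δ H → Near ε H)) ∧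
        (Dense δ H → ¬ Near ε H → (∀ i j, Pair i j → Many δ (A i) H ∨ Many δ (B j) H) ∧
          ((∀ i, Many δ (A i) H) ∨ (Many δ (B 7) H ∧ Many δ (B 9) H)))) ∧
    (∀ (n : ℕ) (g : Fin n → Fin 3),
      (∀ i, copies [A i] (turan g) = 0) ∧ ∀ j, copies [B j] (turan g) = 0) := by
  refine ⟨fun n H hH => ineq H hH, fun ε hε => ?_, fun n g =>
    ⟨fun i => turan_none (msk_A i) (nocol_A i) g, fun j => turan_none (msk_B j) (nocol_B j) g⟩⟩
  obtain ⟨δ, hδ, n0, -, h⟩ := far hε
  refine ⟨δ, hδ, n0, fun n hn H hH => ⟨(h n hn H hH).1, fun hl hf => ?_⟩⟩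
  have h1 := (h n hn H hH).2 hl hf
  refine ⟨h1, ?_⟩
  by_cases ha : ∀ i, Many δ (A i) H
  · exact Or.inl ha
  · push Not at ha
    obtain ⟨i, hi⟩ := ha
    exact Or.inr ⟨(h1 _ _ (cols i).1).resolve_left hi, (h1 _ _ (cols i).2).resolve_left hi⟩

end Pool.Agent.Results.MP_f1799f_co.PairSwitches
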