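import Pool.Agent.Run7.h678.TB.Unique

set_option autoImplicit false

namespace Pool.Agent.Results.MP_f1799f_co.SaturatedPartitions

open Finset

/-- `G` is a 3-graph on `V` in which no four vertices span all four triples. -/
def TetrahedronFree {V : Type} [DecidableEq V] (G : Finset (Finset V)) : Prop :=
  (∀ e ∈ G, e.card = 3) ∧ ∀ S : Finset V, S.card = 4 → ∃ e, e ⊆ S ∧ e.card = 3 ∧ e ∉ G

/-- `e` is a saturated edge of `G`: together with any other vertex it spans exactly three edges
(the largest possible number in a tetrahedron-free 3-graph). -/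
def Saturated {V : Type} [DecidableEq V] (G : Finset (Finset V)) (e : Finset V) : Prop :=
  e ∈ G ∧ ∀ x : V, x ∉ e → (G.filter (fun f => f ⊆ insert x e)).card = 3

/-- The digraph on `3` columns and `r` layers given by the signs `σ`: there is an arc from `x` to
`y` when the column of `y` is the column of `x` plus one (modulo 3) if the sign of the higher of
the two layers is positive, and plus two if it is negative. -/
def Arc {r : ℕ} (σ : Fin r → Bool) (x y : Fin 3 × Fin r) : Prop :=
  y.1 = x.1 + (if σ (max x.2 y.2) then 1 else 2)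

open Classical in
/-- The configuration of Turan, Brown and Kostochka with signs `σ`: the triples in which no
vertex sends arcs to both other vertices and no vertex is joined to neither of them by an arc. -/
noncomputable def kostochka {r : ℕ} (σ : Fin r → Bool) : Finset (Finset (Fin 3 × Fin r)) :=
  (univ.powersetCard 3).filter (fun t => ∀ u ∈ t,
    ¬ (∀ v ∈ t, v ≠ u → Arc σ u v) ∧ ¬ (∀ v ∈ t, v ≠ u → ¬ Arc σ u v ∧ ¬ Arc σ v u))

/-- The layer `m`. -/
def layer {r : ℕ} (m : Fin r) : Finset (Fin 3 × Fin r) := univ.filter (fun x => x.2 = m)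

open Run7.h678.Sat Run7.h678.TB

section aux
variable {V : Type} [Fintype V] [DecidableEq V]

/-- the missing triples -/
def miss (G : Finset (Finset V)) : Finset (Finset V) := (univ.powersetCard 3) \ G

theorem mem_miss {G : Finset (Finset V)} {t : Finset V} :
    t ∈ miss G ↔ t.card = 3 ∧ t ∉ G := by
  simp [miss]

theorem cov_miss {G : Finset (Finset V)} (hG : TetrahedronFree G) : Cov (miss G) := by
  refine ⟨fun t ht => (mem_miss.mp ht).1, fun S hS => ?_⟩
  obtain ⟨e, h1, h2, h3⟩ := hG.2 S hS
  exact ⟨e, mem_miss.mpr ⟨h2, h3⟩, h1⟩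

theorem filter_split (G : Finset (Finset V)) (hG : ∀ e ∈ G, e.card = 3) {S : Finset V}
    (hS : S.card = 4) :
    (G.filter (fun f => f ⊆ S)).card + ((miss G).filter (fun f => f ⊆ S)).card = 4 := by
  rw [← card_union_of_disjoint]
  · have : G.filter (fun f => f ⊆ S) ∪ (miss G).filter (fun f => f ⊆ S) = S.powersetCard 3 := by
      ext f
      simp only [mem_union, mem_filter, mem_miss, mem_powersetCard]
      constructor
      · rintro (⟨h1, h2⟩ | ⟨⟨h1, -⟩, h2⟩)
        · exact ⟨h2, hG f h1⟩
        · exact ⟨h2, h1⟩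
      · rintro ⟨h1, h2⟩
        by_cases h : f ∈ G
        · exact Or.inl ⟨h, h1⟩
        · exact Or.inr ⟨⟨h2, h⟩, h1⟩
    rw [this, card_powersetCard, hS]
    rfl
  · rw [disjoint_left]
    intro f h1 h2
    simp only [mem_filter, mem_miss] at h1 h2
    exact h2.1.2 h1.1

theorem good_miss {G : Finset (Finset V)} (hG : ∀ e ∈ G, e.card = 3) {e : Finset V}
    (h : Saturated G e) (x : V) (hx : x ∉ e) : Good (miss G) e x := by
  refine ⟨fun h' => (mem_miss.mp h').2 h.1, ?_⟩
  have h4 : (insert x e).card = 4 := by rw [card_insert_of_notMem hx, hG e h.1]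
  have := filter_split G hG h4
  have := h.2 x hx
  omega

theorem saturated_of_good {G : Finset (Finset V)} (hG : ∀ e ∈ G, e.card = 3) {e : Finset V}
    (he : e ∈ G) (h : ∀ x, x ∉ e → Good (miss G) e x) : Saturated G e := by
  refine ⟨he, fun x hx => ?_⟩
  have h4 : (insert x e).card = 4 := by rw [card_insert_of_notMem hx, hG e he]
  have := filter_split G hG h4
  have := (h x hx).2
  omega

theorem six_choose (r : ℕ) : 6 * (((3 * r).choose 3 : ℕ) : ℤ) = 27 * r ^ 3 - 27 * r ^ 2 + 6 * r := by
  have h := Nat.descFactorial_eq_factorial_mul_choose (3 * r) 3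
  rcases r with _ | r
  · simp
  · have e : (3 * (r + 1)).descFactorial 3 = (3 * r + 1) * ((3 * r + 2) * (3 * r + 3)) := by
      simp only [Nat.descFactorial]
      have e1 : 3 * (r + 1) - 2 = 3 * r + 1 := by omega
      have e2 : 3 * (r + 1) - 1 = 3 * r + 2 := by omega
      rw [e1, e2, Nat.sub_zero]
      ring
    rw [e] at h
    have h6 : Nat.factorial 3 = 6 := rfl
    rw [h6] at h
    zify at h
    push_cast at h ⊢
    rw [← h]
    ring

theorem card_miss {G : Finset (Finset V)} (hG : ∀ e ∈ G, e.card = 3) :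
    (miss G).card + G.card = (Fintype.card V).choose 3 := by
  have hsub : G ⊆ univ.powersetCard 3 := fun e he => by
    rw [mem_powersetCard]; exact ⟨subset_univ _, hG e he⟩
  have := card_sdiff_add_card_eq_card hsub
  rw [card_powersetCard, card_univ] at this
  exact this

theorem count_iff {G : Finset (Finset V)} (hG : ∀ e ∈ G, e.card = 3) {r : ℕ}
    (hV : Fintype.card V = 3 * r) :
    6 * ((miss G).card : ℤ) = 27 * r ^ 3 - 27 * r ^ 2 + 6 * r - 6 * (G.card : ℤ) := by
  have h1 := card_miss hG
  have h2 := six_choose r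
  rw [← hV, ← h1] at h2
  push_cast at h2
  linarith

end aux

theorem kostochka_eq {r : ℕ} (σ : Fin r → Bool) :
    kostochka σ = (univ.powersetCard 3) \ TBK σ := by
  ext t
  simp only [kostochka, TBK, mem_sdiff, mem_filter, mem_powersetCard, not_and, not_exists]
  constructor
  · rintro ⟨h1, h2⟩
    refine ⟨h1, fun _ u hu h => ?_⟩
    rcases h with h | h
    · exact (h2 u hu).1 h
    · exact (h2 u hu).2 h
  · rintro ⟨h1, h2⟩
    exact ⟨h1, fun u hu => ⟨fun h => h2 h1 u hu (Or.inl h), fun h => h2 h1 u hu (Or.inr h)⟩⟩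

theorem kostochka_three {r : ℕ} (σ : Fin r → Bool) : ∀ e ∈ kostochka σ, e.card = 3 := by
  intro e he
  rw [kostochka_eq, mem_sdiff, mem_powersetCard] at he
  exact he.1.2

theorem miss_kostochka {r : ℕ} (σ : Fin r → Bool) : miss (kostochka σ) = TBK σ := by
  ext t
  rw [mem_miss, kostochka_eq, mem_sdiff, mem_powersetCard]
  constructor
  · rintro ⟨h1, h2⟩
    by_contra h
    exact h2 ⟨⟨subset_univ _, h1⟩, h⟩
  · intro h
    exact ⟨(TBK_cov σ).1 t h, fun h' => h'.2 h⟩

theorem layer_eq {r : ℕ} (m : Fin r) : layer m = fib m := by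
  ext x
  rw [mem_fib]
  simp [layer]

theorem kostochka_free {r : ℕ} (σ : Fin r → Bool) : TetrahedronFree (kostochka σ) := by
  refine ⟨kostochka_three σ, fun S hS => ?_⟩
  obtain ⟨t, h1, h2⟩ := (TBK_cov σ).2 S hS
  refine ⟨t, h2, (TBK_cov σ).1 t h1, ?_⟩
  rw [kostochka_eq, mem_sdiff]
  exact fun h => h.2 h1

theorem kostochka_sat {r : ℕ} (σ : Fin r → Bool) (m : Fin r) :
    Saturated (kostochka σ) (layer m) := by
  refine saturated_of_good (kostochka_three σ) ?_ ?_
  · rw [layer_eq, kostochka_eq, mem_sdiff, mem_powersetCard]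
    exact ⟨⟨subset_univ _, fib_card m⟩, fib_notMem σ m⟩
  · intro x hx
    rw [miss_kostochka, layer_eq]
    rw [layer_eq] at hx
    exact TBK_good σ m x hx

theorem kostochka_card {r : ℕ} (σ : Fin r → Bool) :
    2 * (kostochka σ).card + 3 * r ^ 2 = 5 * r ^ 3 := by
  have hV : Fintype.card (Fin 3 × Fin r) = 3 * r := by simp
  have h1 := TBK_card σ
  have h2 := lower (TBK_cov σ) (B := fib) fib_card fib_disj hV (fun i x hx => TBK_good σ i x hx)
  have h3 := count_iff (kostochka_three σ) hV
  rw [miss_kostochka] at h3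
  zify
  linarith

theorem result :
    -- (1) the largest number of edges, and the extremal 3-graphs
    (∀ (V : Type) [Fintype V] [DecidableEq V] (G : Finset (Finset V)) (r : ℕ)
      (B : Fin r → Finset V), TetrahedronFree G → (∀ i, Saturated G (B i)) →
      (∀ i j, i ≠ j → Disjoint (B i) (B j)) → Fintype.card V = 3 * r →
      2 * G.card + 3 * r ^ 2 ≤ 5 * r ^ 3 ∧
      (2 * G.card + 3 * r ^ 2 = 5 * r ^ 3 ↔
        ∃ (σ : Fin r → Bool) (ψ : Fin 3 × Fin r ≃ V) (p : Equiv.Perm (Fin r)),
          G = (kostochka σ).image (fun e => e.image ψ) ∧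
          ∀ m, B (p m) = (layer m).image ψ)) ∧
    -- (2) all configurations of Turan, Brown and Kostochka occur
    (∀ (r : ℕ) (σ : Fin r → Bool), TetrahedronFree (kostochka σ) ∧
      (∀ m, Saturated (kostochka σ) (layer m)) ∧
      2 * (kostochka σ).card + 3 * r ^ 2 = 5 * r ^ 3) := by
  refine ⟨?_, fun r σ => ⟨kostochka_free σ, kostochka_sat σ, kostochka_card σ⟩⟩
  intro V _ _ G r B hG hsat hdis hV
  have hB : ∀ i, (B i).card = 3 := fun i => hG.1 _ (hsat i).1
  have hT := cov_miss hG
  have hgood : ∀ i x, x ∉ B i → Good (miss G) (B i) x := fun i x hx =>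
    good_miss hG.1 (hsat i) x hx
  have hlow := lower hT hB hdis hV hgood
  have hcount := count_iff hG.1 hV
  refine ⟨?_, ?_, ?_⟩
  · zify
    linarith
  · intro heq
    have hc : 6 * ((miss G).card : ℤ) ≤ 12 * r ^ 3 - 18 * r ^ 2 + 6 * r := by
      zify at heq
      linarith
    obtain ⟨σ, ψ, p, hp, h1, h2⟩ := unique hT hB hdis hV hgood hc
    refine ⟨σ, ψ, Equiv.ofBijective p (Finite.injective_iff_bijective.mp hp), ?_, ?_⟩
    · have key : ∀ e : Finset (Fin 3 × Fin r), e.card = 3 → (e.image ψ ∈ G ↔ e ∈ kostochka σ) := by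
        intro e he
        obtain ⟨x, y, z, hxy, hxz, hyz, rfl⟩ := card_eq_three.mp he
        have h3 := h2 x y z hxy hxz hyz
        have h4 : (({x, y, z} : Finset (Fin 3 × Fin r)).image ψ) = {ψ x, ψ y, ψ z} := by
          rw [image_insert, image_insert, image_singleton]
        have h5 : (({x, y, z} : Finset (Fin 3 × Fin r)).image ψ).card = 3 := by
          rw [card_image_of_injective _ ψ.injective, he]
        rw [← h4, mem_miss] at h3
        rw [kostochka_eq, mem_sdiff, mem_powersetCard]
        constructor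
        · intro h
          exact ⟨⟨subset_univ _, he⟩, fun h' => (h3.mpr h').2 h⟩
        · rintro ⟨-, h⟩
          by_contra hn
          exact h (h3.mp ⟨h5, hn⟩)
      ext f
      rw [mem_image]
      constructor
      · intro hf
        have hf' : (f.image ψ.symm).image ψ = f := by
          rw [image_image]
          have : (ψ ∘ ψ.symm : V → V) = id := by funext v; simp
          rw [this, image_id]
        refine ⟨f.image ψ.symm, ?_, hf'⟩
        rw [← key _ (by rw [card_image_of_injective _ ψ.symm.injective]; exact hG.1 f hf), hf']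
        exact hf
      · rintro ⟨e, he, rfl⟩
        exact (key e (kostochka_three σ e he)).mpr he
    · intro m
      rw [layer_eq, h1]
      rfl
  · rintro ⟨σ, ψ, p, h1, -⟩
    have hinj : Function.Injective (fun e : Finset (Fin 3 × Fin r) => e.image ψ) :=
      Finset.image_injective ψ.injective
    rw [h1, card_image_of_injective _ hinj]
    exact kostochka_card σ

end Pool.Agent.Results.MP_f1799f_co.SaturatedPartitions
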